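import Mathlib

/-!
# MP_008206: the arithmetic chain of the linear range

`T` is the slack of the bound.  The four inequalities (1)-(4) are impossible for `T < 0`
when `D ≥ 4 (k - 2)` and `w ≤ k - 3`.
-/

set_option autoImplicit false

namespace Pool.LIN94

theorem arith {w k D d kap h inc f T : ℤ} (hw : 0 ≤ w) (hk : w + 3 ≤ k)
    (hD : 4 * (k - 2) ≤ D) (hd : 0 ≤ d) (hkap : 0 ≤ kap) (hkd : kap + d ≤ w) (hh : 0 ≤ h)
    (hinc : 0 ≤ inc) (hf : 0 ≤ f)
    (h1 : (w - kap) + w * d - w * h + inc * h + f - kap ≤ T)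
    (h2 : (w - kap) + w * d - w * h + (D - 1 - kap) * h - d * f ≤ T)
    (h3 : (w - kap) + w * d - w * h + (w + 1 - d - inc) * f - kap * (k - 1) ≤ T)
    (h4 : f ≤ D - 1) : 0 ≤ T := by
  by_contra hT
  have hT1 : T ≤ -1 := by omega
  rcases hd.eq_or_lt with hd0 | hd0
  · subst hd0
    nlinarith [mul_nonneg hh (show 0 ≤ D - 1 - kap - w by omega)]
  have hd1 : 1 ≤ d := hd0
  rcases le_or_gt h d with hhd | hhd
  · have e1 := mul_le_mul_of_nonneg_left h1 hd
    nlinarith [mul_nonneg hh (show 0 ≤ D - 1 - kap - w - d by omega),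
      mul_nonneg (mul_nonneg hw hd) (show 0 ≤ d - h by omega), mul_nonneg hd (mul_nonneg hinc hh),
      mul_nonneg hd (show 0 ≤ w - d - kap by omega)]
  obtain ⟨e, rfl⟩ : ∃ e, h = d + e := ⟨h - d, by ring⟩
  have he : 1 ≤ e := by omega
  have hG : 2 * w + 3 + d ≤ D - 1 - 2 * w + d := by omega
  -- (h - d) G < d (w - 1 - d)
  have hg : e * (D - 1 - 2 * w + d) < d * (w - 1 - d) + 1 := by
    nlinarith [mul_le_mul_of_nonneg_left h4 hd, mul_nonneg (show 0 ≤ w - d - kap by omega)
      (show 0 ≤ d + e - 1 by omega)]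
  have hwd : 0 ≤ w - d := by omega
  have he2 : 2 * (w * e) ≤ d * (w - d) := by
    nlinarith [mul_le_mul_of_nonneg_left hG (show 0 ≤ e by omega),
      mul_nonneg (show 0 ≤ e by omega) hd]
  -- f is large
  have hfl : D - w + d + e + 1 ≤ f := by
    by_contra hcon
    have : f ≤ D - w + d + e := by omega
    nlinarith [mul_le_mul_of_nonneg_left this hd, mul_nonneg (show 0 ≤ w - d - kap by omega)
      (show 0 ≤ d + e - 1 by omega), mul_nonneg (show 0 ≤ e by omega)
      (show 0 ≤ D - 1 - 2 * w by omega)]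
  have hi1 : inc * (d + e) ≤ w * e := by nlinarith
  have hi2 : 2 * inc + 1 ≤ w - d := by
    by_contra hcon
    have hc : w - d ≤ 2 * inc := by omega
    have a1 : (w - d) * (d + e) ≤ 2 * (inc * (d + e)) := by
      nlinarith [mul_le_mul_of_nonneg_right hc (show 0 ≤ d + e by omega)]
    have a2 : (w - d) * (d + e) ≤ d * (w - d) := by linarith
    have a3 : (w - d) * e ≤ 0 := by nlinarith
    have a4 : 0 < w - d := by
      rcases hwd.eq_or_lt with h0 | h0
      · exfalso
        have : w * e ≤ 0 := by rw [← h0] at he2; linarith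
        nlinarith
      · exact h0
    nlinarith
  have h5 : (w - d) + 3 ≤ 2 * (w + 1 - d - inc) := by omega
  have hf3 : 3 * k - 2 ≤ f := by omega
  have h6 : ((w - d) + 3) * (3 * k - 2) ≤ 2 * ((w + 1 - d - inc) * f) := by
    have := mul_le_mul h5 hf3 (by omega) (by omega)
    linarith
  have h7 : kap * (k - 1) ≤ (w - d) * (k - 1) :=
    mul_le_mul_of_nonneg_right (by omega) (by omega)
  have h8 : ((w - d) + 3) * (3 * k - 2) ≤ d * (w - d) + 2 * ((w - d) * (k - 1)) := by
    nlinarith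
  have h9 : (w - d) * (d + 2 * k - 2) ≤ (w - d) * (3 * k - 5) :=
    mul_le_mul_of_nonneg_left (by omega) hwd
  nlinarith

end Pool.LIN94
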